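import Pool.Agent.H31.X.Sub

/-!
# (X): the own gradient is constant along the line

`P ω` is the own gradient at the sample `ω`, `E ω i` are directions of lines through the point of
`ω`. If `(P ω - P ω') • E ω' i` is small for most pairs of samples of one line, and the directions
of a few samples span, then `P` is constant along the line.
-/

set_option autoImplicit false

namespace Pool.X31

open Finset Real
open Pool.Agent.H49.Ent Pool.Agent.H32.Dense Pool.STK
open Pool.K2S (cpn)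
open Pool.CLU (cpn_nonneg cpn_pos cpn_marg cpn_law)
open Pool.BFL (Pb P2)
open Pool.Agent.H39.BFL

variable {Ω T : Type} [Fintype Ω]

/-- The vectors `E i` span, quantitatively, in the units `U`: a covector `v` which is small on all
of them is small. -/
def Spn {d : ℕ} {ι : Type} (U : Fin d → ℝ) (σ : ℝ) (E : ι → Fin d → ℝ) : Prop :=
  ∀ (v : Fin d → ℝ) (δ : ℝ), (∀ i, |∑ c, v c * E i c| ≤ δ) → ∀ c, σ * (|v c| * U c) ≤ δ

theorem Spn.mono {d : ℕ} {ι ι' : Type} {U : Fin d → ℝ} {σ : ℝ} {E : ι → Fin d → ℝ}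
    {E' : ι' → Fin d → ℝ} (h : Spn U σ E) (f : ι → ι') (hf : ∀ i, E' (f i) = E i) :
    Spn U σ E' := fun v δ hv => h v δ fun i => by rw [← hf i]; exact hv (f i)

/-- Spanning is stable. -/
theorem Spn.perturb {d : ℕ} {ι : Type} {U : Fin d → ℝ} {σ τ : ℝ} {E E' : ι → Fin d → ℝ}
    (h : Spn U σ E) (hU : ∀ c, 0 < U c) (hτ : d * τ ≤ σ / 2)
    (hE : ∀ i c, |E' i c - E i c| ≤ τ * U c) : Spn U (σ / 2) E' := by
  intro v δ hv
  rcases Nat.eq_zero_or_pos d with h0 | hdp
  · subst h0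
    intro c
    exact c.elim0
  have : Nonempty (Fin d) := ⟨⟨0, hdp⟩⟩
  obtain ⟨c₀, -, hc₀⟩ := Finset.exists_max_image (univ : Finset (Fin d))
    (fun c => |v c| * U c) univ_nonempty
  have hm0 : 0 ≤ |v c₀| * U c₀ := mul_nonneg (abs_nonneg _) (hU _).le
  have h1 : ∀ i, |∑ c, v c * E i c| ≤ δ + d * τ * (|v c₀| * U c₀) := by
    intro i
    have e1 : ∑ c, v c * E i c = ∑ c, v c * E' i c - ∑ c, v c * (E' i c - E i c) := by
      rw [← Finset.sum_sub_distrib]
      exact Finset.sum_congr rfl fun c _ => by ring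
    rw [e1]
    have e2 : |∑ c, v c * (E' i c - E i c)| ≤ ∑ _c : Fin d, τ * (|v c₀| * U c₀) := by
      refine (Finset.abs_sum_le_sum_abs _ _).trans (Finset.sum_le_sum fun c _ => ?_)
      rw [abs_mul]
      have e3 := hE i c
      have e4 := hc₀ c (mem_univ _)
      have hτ0 : 0 ≤ τ := by
        have := (abs_nonneg _).trans e3
        by_contra hneg
        push Not at hneg
        have := mul_neg_of_neg_of_pos hneg (hU c)
        linarith
      calc |v c| * |E' i c - E i c| ≤ |v c| * (τ * U c) :=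
            mul_le_mul_of_nonneg_left e3 (abs_nonneg _)
        _ = τ * (|v c| * U c) := by ring
        _ ≤ τ * (|v c₀| * U c₀) := mul_le_mul_of_nonneg_left e4 hτ0
    rw [Finset.sum_const, Finset.card_univ, Fintype.card_fin, nsmul_eq_mul] at e2
    calc |∑ c, v c * E' i c - ∑ c, v c * (E' i c - E i c)| ≤
          |∑ c, v c * E' i c| + |∑ c, v c * (E' i c - E i c)| := abs_sub _ _
      _ ≤ δ + d * τ * (|v c₀| * U c₀) := by
          have := hv i
          linarith
  have h2 := h v _ h1 c₀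
  intro c
  have h3 := hc₀ c (mem_univ _)
  have hm : (d : ℝ) * τ * (|v c₀| * U c₀) ≤ σ / 2 * (|v c₀| * U c₀) :=
    mul_le_mul_of_nonneg_right hτ hm0
  have h4 : σ / 2 * (|v c₀| * U c₀) ≤ δ := by linarith
  by_cases hσ : 0 ≤ σ
  · exact (mul_le_mul_of_nonneg_left h3 (by linarith)).trans h4
  · push Not at hσ
    have h5 : σ / 2 * (|v c| * U c) ≤ 0 :=
      mul_nonpos_of_nonpos_of_nonneg (by linarith) (mul_nonneg (abs_nonneg _) (hU _).le)
    refine h5.trans ?_
    by_contra hδ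
    push Not at hδ
    by_cases hι : Nonempty ι
    · obtain ⟨i⟩ := hι
      exact absurd ((abs_nonneg _).trans (hv i)) (not_le.2 hδ)
    · have h6 := h (fun c => if c = c₀ then 1 / U c₀ else 0) (2 * δ + σ) (fun i => (hι ⟨i⟩).elim)
        c₀
      simp only [if_true] at h6
      rw [abs_of_pos (one_div_pos.2 (hU c₀)), one_div, inv_mul_cancel₀ (hU c₀).ne', mul_one] at h6
      linarith

/-- **(X), kernel.** -/
theorem grad_const {p : Ω → ℝ} (hp : IsLaw p) (L : Ω → T) {d k s : ℕ} (U : Fin d → ℝ)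
    (P : Ω → Fin d → ℝ) (E : Ω → Fin k → Fin d → ℝ) (δ σ η η' : ℝ)
    (hG : P2 p L (fun ω ω' => ¬ ∀ i, |∑ c, (P ω c - P ω' c) * E ω' i c| ≤ δ) ≤ η)
    (hS : Pb (cpn p L s) (fun w => ¬ Spn U σ
      (fun x : Fin (s + 1) × Fin k => E (w x.1) x.2)) ≤ η') :
    P2 p L (fun ω ω' => ¬ ∀ c, σ * (|P ω c - P ω' c| * U c) ≤ 2 * δ) ≤
      2 * (s + 1) * η + η' := by
  classical
  have hp0 := hp.nonneg
  have hq := cpn_nonneg hp0 L (s + 2)
  rw [← Pb_cpn_pair hp0 L (n := s + 2) (i := 0) (j := 1) (by simp)]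
  obtain ⟨φ, hφdef⟩ : ∃ φ : Fin (s + 1) → Fin (s + 2 + 1), φ = fun i => i.succ.succ := ⟨_, rfl⟩
  have hφ : Function.Injective φ := by
    intro a b hab
    rw [hφdef] at hab
    exact Fin.succ_injective _ (Fin.succ_injective _ hab)
  have hφ0 : ∀ i, φ i ≠ 0 := fun i => by
    rw [hφdef]
    exact Fin.succ_ne_zero _
  have hφ1 : ∀ i, φ i ≠ 1 := fun i => by
    rw [hφdef]
    intro h
    have := congrArg Fin.val h
    simp at this
  have hS' : Pb (cpn p L (s + 2)) (fun w => ¬ Spn U σ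
      (fun x : Fin (s + 1) × Fin k => E (w (φ x.1)) x.2)) ≤ η' := by
    have := Pb_cpn_sub hp0 L φ hφ (fun v => ¬ Spn U σ
      (fun x : Fin (s + 1) × Fin k => E (v x.1) x.2))
    rw [this]
    exact hS
  have hG0 : ∀ j, Pb (cpn p L (s + 2)) (fun w => ¬ ∀ i,
      |∑ c, (P (w 0) c - P (w (φ j)) c) * E (w (φ j)) i c| ≤ δ) ≤ η := fun j => by
    have := Pb_cpn_pair hp0 L (n := s + 2) (i := 0) (j := φ j) (hφ0 j).symm
      (fun ω ω' => ¬ ∀ i, |∑ c, (P ω c - P ω' c) * E ω' i c| ≤ δ)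
    rw [this]
    exact hG
  have hG1 : ∀ j, Pb (cpn p L (s + 2)) (fun w => ¬ ∀ i,
      |∑ c, (P (w 1) c - P (w (φ j)) c) * E (w (φ j)) i c| ≤ δ) ≤ η := fun j => by
    have := Pb_cpn_pair hp0 L (n := s + 2) (i := 1) (j := φ j) (hφ1 j).symm
      (fun ω ω' => ¬ ∀ i, |∑ c, (P ω c - P ω' c) * E ω' i c| ≤ δ)
    rw [this]
    exact hG
  have hU0 := Pb_ex hq (fun (j : Fin (s + 1)) w => ¬ ∀ i,
      |∑ c, (P (w 0) c - P (w (φ j)) c) * E (w (φ j)) i c| ≤ δ) η hG0
  have hU1 := Pb_ex hq (fun (j : Fin (s + 1)) w => ¬ ∀ i,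
      |∑ c, (P (w 1) c - P (w (φ j)) c) * E (w (φ j)) i c| ≤ δ) η hG1
  rw [Fintype.card_fin] at hU0 hU1
  have hall := Pb_or_le hq (Pb_or_le hq hU0 hU1) hS'
  refine (Pb_mono hq ?_).trans (hall.trans ?_)
  · intro w _ hw
    by_contra hcon
    push Not at hcon
    obtain ⟨⟨h1, h2⟩, h3⟩ := hcon
    refine hw fun c => ?_
    refine h3 (fun c => P (w 0) c - P (w 1) c) (2 * δ) ?_ c
    rintro ⟨j, i⟩
    have e1 := h1 j i
    have e2 := h2 j i
    have e3 : ∑ c, (P (w 0) c - P (w 1) c) * E (w (φ j)) i c =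
        ∑ c, (P (w 0) c - P (w (φ j)) c) * E (w (φ j)) i c -
          ∑ c, (P (w 1) c - P (w (φ j)) c) * E (w (φ j)) i c := by
      rw [← Finset.sum_sub_distrib]
      exact Finset.sum_congr rfl fun c _ => by ring
    simp only
    rw [e3]
    refine (abs_sub _ _).trans ?_
    linarith
  · push_cast
    linarith

end Pool.X31
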