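import Pool.Agent.H5.K2.Tree
import Pool.Agent.H39.BFL.Prob

/-!
# Sub-families of conditionally independent copies

The copies `w (φ 0), …, w (φ m)` of a family of `n + 1` copies are a family of `m + 1` copies.
-/

set_option autoImplicit false

namespace Pool.X31

open Finset Real
open Pool.Agent.H49.Ent Pool.Agent.H32.Dense Pool.STK
open Pool.K2S (cpn)
open Pool.CLU (cpn_nonneg cpn_pos cpn_marg cpn_law)
open Pool.BFL (Pb P2)

variable {Ω T : Type} [Fintype Ω]

/-- Sub-families of copies. -/
theorem cpn_sub {p : Ω → ℝ} (hp : ∀ ω, 0 ≤ p ω) (z : Ω → T) {n m : ℕ}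
    (φ : Fin (m + 1) → Fin (n + 1)) (hφ : Function.Injective φ) :
    Marg (cpn p z n) (cpn p z m) (fun w i => w (φ i)) := by
  classical
  intro v
  by_cases hv : ∀ i, z (v i) = z (v 0)
  swap
  · have h0 : cpn p z m v = 0 := by
      unfold cpn
      rw [if_neg hv]
    rw [h0]
    refine Finset.sum_eq_zero fun w _ => ?_
    split_ifs with h
    · unfold cpn
      rw [if_neg]
      intro hw
      refine hv fun i => ?_
      have h1 := congrFun h i
      have h2 := congrFun h 0
      simp only at h1 h2
      rw [← h1, ← h2, hw (φ i), hw (φ 0)]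
    · rfl
  obtain ⟨G, hG⟩ : ∃ G, G = z (v 0) := ⟨_, rfl⟩
  have hvG : ∀ i, z (v i) = G := fun i => by rw [hG]; exact hv i
  obtain ⟨R, hR⟩ : ∃ R : (Fin (n + 1) → Ω) → ℝ, R = fun w =>
      (∏ j, if h : ∃ i, φ i = j then (if w j = v h.choose then p (w j) else 0) else
        (if z (w j) = G then p (w j) else 0)) / law p z G ^ n := ⟨_, rfl⟩
  have key : ∀ w : Fin (n + 1) → Ω, (@ite ℝ ((fun i => w (φ i)) = v)
      (Classical.propDecidable _) (cpn p z n w) 0) = R w := by
    intro w
    rw [hR]
    dsimp only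
    have hch : ∀ i (h : ∃ i', φ i' = φ i), h.choose = i := fun i h => hφ h.choose_spec
    by_cases hw : ∀ i, w (φ i) = v i
    · rw [if_pos (funext hw)]
      unfold cpn
      by_cases hz : ∀ j, z (w j) = z (w 0)
      · have hz' : ∀ j, z (w j) = G := fun j => by
          rw [hz j, ← hz (φ 0), hw 0, hvG]
        rw [if_pos hz, hz' 0]
        congr 1
        refine Finset.prod_congr rfl fun j _ => ?_
        by_cases hj : ∃ i, φ i = j
        · rw [dif_pos hj, if_pos]
          have := hw hj.choose
          rw [hj.choose_spec] at this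
          exact this
        · rw [dif_neg hj, if_pos (hz' j)]
      · rw [if_neg hz]
        have hz2 : ∃ j, z (w j) ≠ G := by
          by_contra hc
          push Not at hc
          exact hz fun j => by rw [hc j, hc 0]
        obtain ⟨j, hj⟩ := hz2
        have hj' : ¬ ∃ i, φ i = j := by
          rintro ⟨i, rfl⟩
          exact hj (by rw [hw i, hvG])
        rw [Finset.prod_eq_zero (Finset.mem_univ j), zero_div]
        rw [dif_neg hj', if_neg hj]
    · rw [if_neg fun h => hw fun i => congrFun h i]
      push Not at hw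
      obtain ⟨i, hi⟩ := hw
      have hex : ∃ i', φ i' = φ i := ⟨i, rfl⟩
      rw [Finset.prod_eq_zero (Finset.mem_univ (φ i)), zero_div]
      rw [dif_pos hex, if_neg]
      rw [hch i hex]
      exact hi
  refine (Finset.sum_congr rfl fun w _ => key w).trans ?_
  rw [hR, ← Finset.sum_div]
  have h2 := Finset.prod_univ_sum (fun _ : Fin (n + 1) => (univ : Finset Ω))
    (fun j x => if h : ∃ i, φ i = j then (if x = v h.choose then p x else 0) else
      (if z x = G then p x else 0))
  rw [Fintype.piFinset_univ] at h2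
  rw [← h2]
  have h3 : ∀ j : Fin (n + 1), (∑ x, if h : ∃ i, φ i = j then (if x = v h.choose then p x else 0)
      else (if z x = G then p x else 0)) =
      if h : ∃ i, φ i = j then p (v h.choose) else law p z G := by
    intro j
    by_cases hj : ∃ i, φ i = j
    · simp only [dif_pos hj]
      rw [Finset.sum_ite_eq' univ (v hj.choose), if_pos (mem_univ _)]
    · simp only [dif_neg hj]
      rfl
  rw [Finset.prod_congr rfl fun j _ => h3 j]
  have h4 : (∏ j : Fin (n + 1), if h : ∃ i, φ i = j then p (v h.choose) else law p z G) =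
      (∏ i, p (v i)) * law p z G ^ (n - m) := by
    rw [← Finset.prod_mul_prod_compl (univ.image φ)]
    congr 1
    · rw [Finset.prod_image fun a _ b _ h => hφ h]
      refine Finset.prod_congr rfl fun i _ => ?_
      have hex : ∃ i', φ i' = φ i := ⟨i, rfl⟩
      rw [dif_pos hex, hφ hex.choose_spec]
    · have h5 : ∀ j ∈ (univ.image φ)ᶜ, (if h : ∃ i, φ i = j then p (v h.choose) else
          law p z G) = law p z G := by
        intro j hj
        rw [Finset.mem_compl, Finset.mem_image] at hj
        rw [dif_neg]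
        rintro ⟨i, hi⟩
        exact hj ⟨i, mem_univ _, hi⟩
      rw [Finset.prod_congr rfl h5, Finset.prod_const]
      congr 1
      rw [Finset.card_compl, Finset.card_image_of_injective _ hφ, Finset.card_univ,
        Fintype.card_fin, Fintype.card_fin]
      omega
  rw [h4]
  have hmn : m ≤ n := by
    have := Fintype.card_le_of_injective φ hφ
    rw [Fintype.card_fin, Fintype.card_fin] at this
    omega
  unfold cpn
  rw [if_pos hv, ← hG]
  by_cases hl : law p z G = 0
  · have h6 : p (v 0) = 0 := by
      by_contra hne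
      have := law_pos hp z (lt_of_le_of_ne (hp (v 0)) (Ne.symm hne))
      rw [hvG 0] at this
      exact this.ne' hl
    rw [Finset.prod_eq_zero (Finset.mem_univ 0) h6, zero_mul, zero_div, zero_div]
  · rw [div_eq_div_iff (pow_ne_zero _ hl) (pow_ne_zero _ hl), mul_assoc, ← pow_add]
    congr 2
    omega

/-- Probabilities of events for a sub-family. -/
theorem Pb_cpn_sub {p : Ω → ℝ} (hp : ∀ ω, 0 ≤ p ω) (z : Ω → T) {n m : ℕ}
    (φ : Fin (m + 1) → Fin (n + 1)) (hφ : Function.Injective φ) (A : (Fin (m + 1) → Ω) → Prop) :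
    Pb (cpn p z n) (fun w => A fun i => w (φ i)) = Pb (cpn p z m) A := by
  classical
  have h := (cpn_sub hp z φ hφ).ex (fun v => if A v then (1 : ℝ) else 0)
  unfold Pb
  unfold Ex at h
  have e1 : ∀ (q : (Fin (n + 1) → Ω) → ℝ), (∑ w, if A (fun i => w (φ i)) then q w else 0) =
      ∑ w, q w * (if A (fun i => w (φ i)) then (1 : ℝ) else 0) := fun q =>
    Finset.sum_congr rfl fun w _ => by split_ifs <;> simp
  have e2 : (∑ v, if A v then cpn p z m v else 0) =
      ∑ v, cpn p z m v * (if A v then (1 : ℝ) else 0) :=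
    Finset.sum_congr rfl fun v _ => by split_ifs <;> simp
  rw [e1, e2]
  exact h

/-- Two copies are a conditionally independent pair. -/
theorem Pb_cpn_one {p : Ω → ℝ} (z : Ω → T) (A : Ω → Ω → Prop) :
    Pb (cpn p z 1) (fun w => A (w 0) (w 1)) = P2 p z A := by
  classical
  unfold Pb P2
  have e := (Fintype.sum_equiv (finTwoArrowEquiv Ω) (fun w : Fin (1 + 1) → Ω =>
    if A (w 0) (w 1) then cpn p z 1 w else 0)
    (fun x : Ω × Ω => if z x.1 = z x.2 ∧ A x.1 x.2 then p x.1 * p x.2 / law p z (z x.1) else 0)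
    (fun w => ?_))
  · rw [e, Fintype.sum_prod_type]
  · have hw : finTwoArrowEquiv Ω w = (w 0, w 1) := rfl
    rw [hw]
    dsimp only
    unfold cpn
    by_cases h1 : z (w 0) = z (w 1)
    · have h2 : ∀ i : Fin (1 + 1), z (w i) = z (w 0) := by
        intro i
        fin_cases i
        · rfl
        · exact h1.symm
      rw [if_pos h2]
      by_cases h3 : A (w 0) (w 1)
      · rw [if_pos h3, if_pos ⟨h1, h3⟩, Fin.prod_univ_two, pow_one]
      · rw [if_neg h3, if_neg fun h => h3 h.2]
    · rw [if_neg fun h : ∀ i : Fin (1 + 1), z (w i) = z (w 0) => h1 (h 1).symm, ite_self]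
      rw [if_neg fun h => h1 h.1]

/-- The event of a pair of copies. -/
theorem Pb_cpn_pair {p : Ω → ℝ} (hp : ∀ ω, 0 ≤ p ω) (z : Ω → T) {n : ℕ} {i j : Fin (n + 1)}
    (hij : i ≠ j) (A : Ω → Ω → Prop) :
    Pb (cpn p z n) (fun w => A (w i) (w j)) = P2 p z A := by
  rw [← Pb_cpn_one z A]
  have h := Pb_cpn_sub hp z (n := n) (m := 1) ![i, j] (by
    intro a b hab
    fin_cases a <;> fin_cases b <;> simp_all) (fun w => A (w 0) (w 1))
  simpa using h

end Pool.X31
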