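import Pool.Agent.H39.BFL.Prob
import Pool.Agent.H32.Dense.EntX

/-!
# XLL: a relation between almost independent variables

If `Rel (w ω) (E ω)` holds for all samples and `E` is almost independent of `w` given `b`, then the
value of `w` may be chosen as a function of `b`, on an event which is not too small.
-/

set_option autoImplicit false

namespace Pool.X31

open Finset Real
open Pool.Agent.H49.Ent Pool.Agent.H32.Dense
open Pool.BFL (Pb)

section Xll

variable {Ω S T V : Type} [Fintype Ω]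

open Classical in
/-- The mass of the slab of `v` in the fibre of `β`. -/
noncomputable def slb (q : Ω → ℝ) (b : Ω → T) (E : Ω → S) (Rel : V → S → Prop) (v : V) (β : T) :
    ℝ :=
  ∑ ω, if b ω = β ∧ Rel v (E ω) then q ω else 0

theorem slb_nonneg {q : Ω → ℝ} (hq : ∀ ω, 0 ≤ q ω) (b : Ω → T) (E : Ω → S) (Rel : V → S → Prop)
    (v : V) (β : T) : 0 ≤ slb q b E Rel v β := by
  unfold slb
  exact Finset.sum_nonneg fun ω _ => by
    split_ifs
    exacts [hq ω, le_rfl]

theorem slb_ge {q : Ω → ℝ} (hq : ∀ ω, 0 ≤ q ω) (b : Ω → T) (E : Ω → S) (Rel : V → S → Prop)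
    (v : V) {ω : Ω} (h : Rel v (E ω)) : q ω ≤ slb q b E Rel v (b ω) := by
  classical
  unfold slb
  have h1 := Finset.single_le_sum (f := fun ω' => if b ω' = b ω ∧ Rel v (E ω') then q ω' else 0)
    (fun ω' _ => by
      split_ifs
      exacts [hq ω', le_rfl]) (mem_univ ω)
  simp only [h, and_self, if_true] at h1
  exact h1

theorem slb_le {q : Ω → ℝ} (hq : ∀ ω, 0 ≤ q ω) (b : Ω → T) (E : Ω → S) (Rel : V → S → Prop)
    (v : V) (β : T) : slb q b E Rel v β ≤ law q b β := by
  classical
  unfold slb law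
  refine Finset.sum_le_sum fun ω _ => ?_
  by_cases h : b ω = β
  · simp only [h, true_and, if_true]
    split_ifs
    exacts [le_rfl, hq ω]
  · simp only [h, false_and, if_false, le_refl]

/-- **XLL, entropy form.** -/
theorem xll_ent {q : Ω → ℝ} (hq : ∀ ω, 0 ≤ q ω) (h1 : ∑ ω, q ω = 1) (b : Ω → T) (E : Ω → S)
    (w : Ω → V) (Rel : V → S → Prop) (hR : ∀ ω, 0 < q ω → Rel (w ω) (E ω)) :
    Ex q (fun ω => Real.log (law q b (b ω) / slb q b E Rel (w ω) (b ω))) ≤
      CH q E b - CH q E (fun ω => (w ω, b ω)) := by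
  classical
  have hpos : ∀ ω, 0 < q ω → 0 < slb q b E Rel (w ω) (b ω) := fun ω h =>
    h.trans_le (slb_ge hq b E Rel (w ω) (hR ω h))
  have h2 := CH_le_cross hq h1 E (fun ω => (w ω, b ω))
    (fun x e => if Rel x.1 e then law q (fun ω => (E ω, b ω)) (e, x.2) /
      slb q b E Rel x.1 x.2 else 0)
    (fun ω h => by
      dsimp only
      rw [if_pos (hR ω h)]
      exact div_pos (law_pos hq (fun ω => (E ω, b ω)) h) (hpos ω h))
    (fun x e => by
      split_ifs
      exacts [div_nonneg (law_nonneg hq _ _) (slb_nonneg hq _ _ _ _ _), le_rfl])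
    (fun ω h F => by
      have hp := hpos ω h
      have e1 : ∑ x ∈ F, (if Rel (w ω) x then law q (fun ω => (E ω, b ω)) (x, b ω) /
          slb q b E Rel (w ω) (b ω) else 0) =
          (∑ x ∈ F, if Rel (w ω) x then law q (fun ω => (E ω, b ω)) (x, b ω) else 0) /
            slb q b E Rel (w ω) (b ω) := by
        rw [Finset.sum_div]
        refine Finset.sum_congr rfl fun x _ => ?_
        split_ifs
        · rfl
        · rw [zero_div]
      rw [e1, div_le_one hp]
      have e2 : ∀ x ∈ F, (if Rel (w ω) x then law q (fun ω => (E ω, b ω)) (x, b ω) else 0) =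
          ∑ ω', if E ω' = x then (if b ω' = b ω ∧ Rel (w ω) (E ω') then q ω' else 0) else 0 := by
        intro x _
        unfold law
        by_cases hx : Rel (w ω) x
        · rw [if_pos hx]
          refine Finset.sum_congr rfl fun ω' _ => ?_
          by_cases hE : E ω' = x
          · by_cases hb : b ω' = b ω
            · rw [if_pos (show (E ω', b ω') = (x, b ω) by rw [hE, hb]), if_pos hE,
                if_pos ⟨hb, hE ▸ hx⟩]
            · rw [if_neg (fun h => hb (Prod.ext_iff.1 h).2), if_pos hE,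
                if_neg (fun h => hb h.1)]
          · rw [if_neg (fun h => hE (Prod.ext_iff.1 h).1), if_neg hE]
        · rw [if_neg hx]
          symm
          refine Finset.sum_eq_zero fun ω' _ => ?_
          by_cases hE : E ω' = x
          · rw [if_pos hE, if_neg (fun h => hx (hE ▸ h.2))]
          · rw [if_neg hE]
      rw [Finset.sum_congr rfl e2, Finset.sum_comm]
      unfold slb
      refine Finset.sum_le_sum fun ω' _ => ?_
      rw [Finset.sum_ite_eq F (E ω')]
      split_ifs
      · exact le_rfl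
      · exact le_rfl
      · exact hq ω'
      · exact le_rfl)
  rw [CH_eq_neg_sum hq E b]
  have h3 : Ex q (fun ω => -Real.log (if Rel (w ω) (E ω) then
      law q (fun ω => (E ω, b ω)) (E ω, b ω) / slb q b E Rel (w ω) (b ω) else 0)) +
      Ex q (fun ω => Real.log (law q b (b ω) / slb q b E Rel (w ω) (b ω))) ≤
      Ex q (fun ω => -Real.log (law q (fun ω => (E ω, b ω)) (E ω, b ω) / law q b (b ω))) := by
    unfold Ex
    rw [← Finset.sum_add_distrib]
    refine Finset.sum_le_sum fun ω _ => ?_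
    rcases (hq ω).eq_or_lt with h0 | h0
    · rw [← h0]
      simp
    · rw [← mul_add]
      refine mul_le_mul_of_nonneg_left ?_ h0.le
      dsimp only
      rw [if_pos (hR ω h0)]
      have a1 := law_pos hq (fun ω => (E ω, b ω)) h0
      have a2 := law_pos hq b h0
      have a3 := hpos ω h0
      rw [Real.log_div a1.ne' a3.ne', Real.log_div a2.ne' a3.ne', Real.log_div a1.ne' a2.ne']
      linarith
  have h4 : CH q E (fun ω => (w ω, b ω)) ≤ Ex q (fun ω => -Real.log (if Rel (w ω) (E ω) then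
      law q (fun ω => (E ω, b ω)) (E ω, b ω) / slb q b E Rel (w ω) (b ω) else 0)) := h2
  linarith

/-- **XLL.** The value of `w` as a function of `b`. -/
theorem xll {q : Ω → ℝ} (hq : ∀ ω, 0 ≤ q ω) (h1 : ∑ ω, q ω = 1) (b : Ω → T) (E : Ω → S)
    (w : Ω → V) (Rel : V → S → Prop) (hR : ∀ ω, 0 < q ω → Rel (w ω) (E ω)) {ι : ℝ} (hι : 0 < ι)
    (hI : CH q E b - CH q E (fun ω => (w ω, b ω)) ≤ ι) (G : Ω → Prop) {g : ℝ} (hg : 0 < g)
    (hG : g ≤ Pb q G) :
    ∃ N : T → Ω, Real.exp (-(2 * ι / g)) * (g / 2) ≤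
      Pb q (fun ω => G (N (b ω)) ∧ b (N (b ω)) = b ω ∧ Rel (w (N (b ω))) (E ω)) := by
  classical
  have hne : Nonempty Ω := by
    by_contra hcon
    rw [not_nonempty_iff] at hcon
    rw [Finset.univ_eq_empty, Finset.sum_empty] at h1
    exact zero_ne_one h1
  set L : Ω → ℝ := fun ω => Real.log (law q b (b ω) / slb q b E Rel (w ω) (b ω)) with hL
  have hpos : ∀ ω, 0 < q ω → 0 < slb q b E Rel (w ω) (b ω) := fun ω h =>
    h.trans_le (slb_ge hq b E Rel (w ω) (hR ω h))
  have hL0 : ∀ ω, 0 < q ω → 0 ≤ L ω := fun ω h =>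
    Real.log_nonneg ((one_le_div (hpos ω h)).2 (slb_le hq b E Rel (w ω) (b ω)))
  have hEx : Ex q L ≤ ι := (xll_ent hq h1 b E w Rel hR).trans hI
  set t : ℝ := 2 * ι / g with ht
  have htp : 0 < t := by positivity
  -- Markov
  have hM : Pb q (fun ω => t < L ω) ≤ g / 2 := by
    have e1 : t * Pb q (fun ω => t < L ω) ≤ Ex q L := by
      unfold Pb Ex
      rw [Finset.mul_sum]
      refine Finset.sum_le_sum fun ω _ => ?_
      rcases (hq ω).eq_or_lt with h0 | h0
      · rw [← h0]
        simp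
      · split_ifs with h
        · rw [mul_comm]
          exact mul_le_mul_of_nonneg_left h.le h0.le
        · rw [mul_zero]
          exact mul_nonneg h0.le (hL0 ω h0)
    have e2 : t * Pb q (fun ω => t < L ω) ≤ t * (g / 2) := by
      refine e1.trans (hEx.trans (le_of_eq ?_))
      rw [ht]
      field_simp
    exact le_of_mul_le_mul_left e2 htp
  set G' : Ω → Prop := fun ω => G ω ∧ L ω ≤ t ∧ 0 < q ω with hG'
  have hGG : g / 2 ≤ Pb q G' := by
    have e1 : Pb q G ≤ Pb q G' + Pb q (fun ω => t < L ω) := by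
      unfold Pb
      rw [← Finset.sum_add_distrib]
      refine Finset.sum_le_sum fun ω _ => ?_
      rcases (hq ω).eq_or_lt with h0 | h0
      · rw [← h0]
        simp
      · by_cases a : G ω
        · by_cases c : L ω ≤ t
          · rw [if_pos a, if_pos (show G' ω from ⟨a, c, h0⟩)]
            split_ifs
            · linarith
            · linarith
          · rw [if_pos a, if_neg (fun h : G' ω => c h.2.1), if_pos (not_le.1 c)]
            linarith
        · rw [if_neg a]
          split_ifs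
          all_goals linarith
    linarith
  set N : T → Ω := fun β => if h : ∃ ω, G' ω ∧ b ω = β then h.choose else hne.some with hN
  have hNs : ∀ ω, G' ω → G' (N (b ω)) ∧ b (N (b ω)) = b ω := by
    intro ω hω
    have h : ∃ ω', G' ω' ∧ b ω' = b ω := ⟨ω, hω, rfl⟩
    rw [hN]
    dsimp only
    rw [dif_pos h]
    exact h.choose_spec
  refine ⟨N, ?_⟩
  set B' : Finset T := (univ.filter G').image b with hB'
  have hBN : ∀ β ∈ B', G' (N β) ∧ b (N β) = β := by
    intro β hβ
    obtain ⟨ω, hω, rfl⟩ := Finset.mem_image.1 hβ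
    exact hNs ω (Finset.mem_filter.1 hω).2
  have f1 : ∑ β ∈ B', slb q b E Rel (w (N β)) β ≤
      Pb q (fun ω => G (N (b ω)) ∧ b (N (b ω)) = b ω ∧ Rel (w (N (b ω))) (E ω)) := by
    unfold slb Pb
    rw [Finset.sum_comm]
    refine Finset.sum_le_sum fun ω _ => ?_
    have e1 : ∀ β ∈ B', (if b ω = β ∧ Rel (w (N β)) (E ω) then q ω else 0) =
        if b ω = β then (if Rel (w (N (b ω))) (E ω) then q ω else 0) else 0 := by
      intro β _
      by_cases h : b ω = β
      · subst h
        simp only [true_and, if_true]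
      · simp only [h, false_and, if_false]
    rw [Finset.sum_congr rfl e1, Finset.sum_ite_eq B' (b ω)]
    by_cases h : b ω ∈ B'
    · rw [if_pos h]
      obtain ⟨a1, a2⟩ := hBN _ h
      by_cases hr : Rel (w (N (b ω))) (E ω)
      · rw [if_pos hr, if_pos ⟨a1.1, a2, hr⟩]
      · rw [if_neg hr]
        split_ifs
        exacts [hq ω, le_rfl]
    · rw [if_neg h]
      split_ifs
      exacts [hq ω, le_rfl]
  have f2 : ∀ β ∈ B', Real.exp (-t) * law q b β ≤ slb q b E Rel (w (N β)) β := by
    intro β hβ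
    obtain ⟨a1, a2⟩ := hBN β hβ
    have a3 := hpos _ a1.2.2
    have a4 := law_pos hq b a1.2.2
    have a5 : Real.log (law q b (b (N β)) / slb q b E Rel (w (N β)) (b (N β))) ≤ t := a1.2.1
    rw [a2] at a3 a4 a5
    rw [Real.log_le_iff_le_exp (div_pos a4 a3), div_le_iff₀ a3] at a5
    rw [Real.exp_neg, inv_mul_le_iff₀ (Real.exp_pos _)]
    exact a5
  have f3 : Pb q G' ≤ ∑ β ∈ B', law q b β := by
    unfold Pb law
    rw [Finset.sum_comm]
    refine Finset.sum_le_sum fun ω _ => ?_
    rw [Finset.sum_ite_eq B' (b ω)]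
    by_cases h : G' ω
    · rw [if_pos h, if_pos (Finset.mem_image_of_mem b (Finset.mem_filter.2 ⟨mem_univ _, h⟩))]
    · rw [if_neg h]
      split_ifs
      exacts [hq ω, le_rfl]
  calc Real.exp (-(2 * ι / g)) * (g / 2) ≤ Real.exp (-t) * Pb q G' :=
        mul_le_mul_of_nonneg_left hGG (Real.exp_pos _).le
    _ ≤ Real.exp (-t) * ∑ β ∈ B', law q b β := mul_le_mul_of_nonneg_left f3 (Real.exp_pos _).le
    _ = ∑ β ∈ B', Real.exp (-t) * law q b β := by rw [Finset.mul_sum]
    _ ≤ ∑ β ∈ B', slb q b E Rel (w (N β)) β := Finset.sum_le_sum f2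
    _ ≤ _ := f1

/-- **XLL for covectors.** If `|w • E| ≤ ρ` always, `E` is almost independent of `w` given `b`, and
`w` has a coordinate larger than `τ` with probability `g`, then a covector `n (b)` of sup norm one
kills `E` up to `ρ / τ`, with probability at least `exp (-(2 ι / g)) g / 2`. -/
theorem xll_vec {d : ℕ} {q : Ω → ℝ} (hq : ∀ ω, 0 ≤ q ω) (h1 : ∑ ω, q ω = 1) (b : Ω → T)
    (E w : Ω → Fin d → ℝ) {ρ τ : ℝ} (hρ : 0 ≤ ρ) (hτ : 0 < τ)
    (hR : ∀ ω, 0 < q ω → |∑ c, w ω c * E ω c| ≤ ρ) {ι : ℝ} (hι : 0 < ι)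
    (hI : CH q E b - CH q E (fun ω => (w ω, b ω)) ≤ ι) {g : ℝ} (hg : 0 < g)
    (hG : g ≤ Pb q (fun ω => ∃ c, τ < |w ω c|)) :
    ∃ n : T → Fin d → ℝ, (∀ β c, |n β c| ≤ 1) ∧ Real.exp (-(2 * ι / g)) * (g / 2) ≤
      Pb q (fun ω => (∃ c, |n (b ω) c| = 1) ∧ |∑ c, n (b ω) c * E ω c| ≤ ρ / τ) := by
  classical
  obtain ⟨N, hN⟩ := xll hq h1 b E w (fun v e => |∑ c, v c * e c| ≤ ρ) hR hι hI
    (fun ω => ∃ c, τ < |w ω c|) hg hG
  set mx : T → ℝ := fun β => if h : (univ : Finset (Fin d)).Nonempty then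
    (univ : Finset (Fin d)).sup' h (fun c => |w (N β) c|) else 1 with hmx
  refine ⟨fun β c => w (N β) c / mx β, fun β c => ?_, hN.trans ?_⟩
  · have hne : (univ : Finset (Fin d)).Nonempty := ⟨c, mem_univ _⟩
    have e1 : mx β = (univ : Finset (Fin d)).sup' hne (fun c => |w (N β) c|) := by
      rw [hmx]
      dsimp only
      rw [dif_pos hne]
    have e2 : |w (N β) c| ≤ mx β := by
      rw [e1]
      exact Finset.le_sup' (fun c => |w (N β) c|) (mem_univ c)
    have e3 : 0 ≤ mx β := (abs_nonneg _).trans e2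
    rw [abs_div, abs_of_nonneg e3]
    rcases e3.eq_or_lt with h0 | h0
    · rw [← h0, div_zero]
      exact zero_le_one
    · exact (div_le_one h0).2 e2
  · unfold Pb
    refine Finset.sum_le_sum fun ω _ => ?_
    by_cases h : (∃ c, τ < |w (N (b ω)) c|) ∧ b (N (b ω)) = b ω ∧
        |∑ c, w (N (b ω)) c * E ω c| ≤ ρ
    · have h' := h
      obtain ⟨⟨c0, hc0⟩, -, h3⟩ := h'
      have hne : (univ : Finset (Fin d)).Nonempty := ⟨c0, mem_univ _⟩
      have e1 : mx (b ω) = (univ : Finset (Fin d)).sup' hne (fun c => |w (N (b ω)) c|) := by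
        rw [hmx]
        dsimp only
        rw [dif_pos hne]
      obtain ⟨c1, -, hc1⟩ := Finset.exists_mem_eq_sup' hne (fun c => |w (N (b ω)) c|)
      have e2 : τ < mx (b ω) := by
        rw [e1]
        exact hc0.trans_le (Finset.le_sup' (fun c => |w (N (b ω)) c|) (mem_univ c0))
      have e3 : 0 < mx (b ω) := hτ.trans e2
      have e4 : |w (N (b ω)) c1 / mx (b ω)| = 1 := by
        rw [abs_div, abs_of_pos e3, ← hc1, ← e1, div_self e3.ne']
      have e5 : |∑ c, w (N (b ω)) c / mx (b ω) * E ω c| ≤ ρ / τ := by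
        have e6 : ∑ c, w (N (b ω)) c / mx (b ω) * E ω c =
            (∑ c, w (N (b ω)) c * E ω c) / mx (b ω) := by
          rw [Finset.sum_div]
          exact Finset.sum_congr rfl fun c _ => by ring
        rw [e6, abs_div, abs_of_pos e3]
        exact div_le_div₀ hρ h3 hτ e2.le
      rw [if_pos h, if_pos ⟨⟨c1, e4⟩, e5⟩]
    · rw [if_neg h]
      split_ifs
      exacts [hq ω, le_rfl]

end Xll

end Pool.X31
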